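import Pool.Agent.Q271.LittleDim

set_option autoImplicit false

namespace Pool.Agent.Results.MP_26f5de_nt.FullDimension

open Q271.Little Filter Topology
open scoped NNReal ENNReal

/-- each value of `v + d` occurs at most `l` times among the labels -/
lemma card_fiber_labels (L : ℕ → ℕ) (l n k : ℕ) :
    ((labels L l n).filter (fun p => p.1 + p.2 = k)).card ≤ l := by
  have h : (Finset.Ioc (n * l) ((n + 1) * l)).card = l := by
    rw [Nat.card_Ioc]
    have : (n + 1) * l = n * l + l := by ring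
    omega
  refine le_trans ?_ h.le
  apply Finset.card_le_card_of_injOn (fun p => k + p.2 + L k)
  · intro p hp
    rw [Finset.mem_coe, Finset.mem_filter, labels, Finset.mem_filter] at hp
    obtain ⟨⟨-, h1, h2⟩, h3⟩ := hp
    rw [h3] at h1 h2
    have h4 : k + p.2 + L k ∈ Finset.Ioc (n * l) ((n + 1) * l) := by
      rw [Finset.mem_Ioc]
      constructor <;> omega
    exact h4
  · intro p hp p' hp' h1
    rw [Finset.mem_coe, Finset.mem_filter] at hp hp'
    have h2 : p.2 = p'.2 := by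
      have : k + p.2 + L k = k + p'.2 + L k := h1
      omega
    have h3 : p.1 = p'.1 := by
      have a := hp.2
      have b := hp'.2
      omega
    exact Prod.ext h3 h2

/-- For every finite field and every `lam > 0` the set of counterexamples to the `t`-adic
Littlewood conjecture with growth function `log ^ (1 + lam)` has Hausdorff dimension `1`. -/
theorem result (F : Type) [Field F] [Fintype F] (lam : ℝ) (hlam : 0 < lam) :
    dimH (M F (growth lam)) = 1 := by
  refine le_antisymm (dimH_le_one _) (ENNReal.le_of_forall_nnreal_lt fun θ hθ => ?_)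
  rcases eq_or_ne θ 0 with rfl | hθ0
  · simp
  have hθpos : 0 < θ := pos_iff_ne_zero.2 hθ0
  have hθ1 : (θ : ℝ) < 1 := by exact_mod_cast hθ
  set q : ℝ := (Fintype.card F : ℝ) with hq
  have hq1 : 1 < q := card_pos'
  have hq0 : 0 < q := by linarith
  set δ : ℝ := min (1 - θ) (lam / (2 * (1 + lam))) with hδ
  have hδ0 : 0 < δ := lt_min (by linarith) (by positivity)
  have hδ1 : δ ≤ 1 - θ := min_le_left _ _
  have hδ2 : δ * (1 + lam) ≤ lam / 2 := by
    have h1 : δ ≤ lam / (2 * (1 + lam)) := min_le_right _ _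
    rw [le_div_iff₀ (by positivity)] at h1
    linarith
  set κ : ℝ := 1 - δ with hκ
  set p : ℝ := κ * (1 + lam) with hp
  have hp1 : 1 < p := by
    rw [hp, hκ]
    nlinarith
  have hκ0 : 0 < κ := by
    by_contra h
    push Not at h
    have : p ≤ 0 := mul_nonpos_of_nonpos_of_nonneg h (by linarith)
    linarith
  -- the block length
  have hqδ : 1 < q ^ δ := Real.one_lt_rpow hq1 hδ0
  obtain ⟨l, hl4⟩ := ((tendsto_pow_atTop_atTop_of_one_lt hqδ).eventually_ge_atTop 4).exists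
  have hl1 : 1 ≤ l := by
    by_contra h
    have : l = 0 := by omega
    rw [this, pow_zero] at hl4
    norm_num at hl4
  set R : ℕ := Fintype.card F ^ l with hR
  have hRr : (R : ℝ) = q ^ l := by
    rw [hR]
    push_cast
    rfl
  have hqlδ : (q ^ δ) ^ l = (q ^ l) ^ δ := by rw [Real.rpow_pow_comm hq0.le]
  have hR4' : (4 : ℝ) ≤ R := by
    rw [hRr]
    refine hl4.trans ?_
    gcongr
    calc q ^ δ ≤ q ^ (1 : ℝ) := Real.rpow_le_rpow_of_exponent_le hq1.le (by
          have : 0 ≤ (θ : ℝ) := θ.coe_nonneg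
          linarith)
      _ = q := Real.rpow_one q
  have hR4 : 4 ≤ R := by exact_mod_cast hR4'
  have hR0 : (0 : ℝ) < R := by linarith
  set s : ℕ := R / 2 + 1 with hs
  set t : ℕ := R - R / 2 with ht
  have hst : s + t = Fintype.card F ^ l + 1 := by
    rw [← hR, hs, ht]
    omega
  have ht2 : 2 ≤ t := by omega
  have htR : (R : ℝ) / 2 ≤ t := by
    have h1 : R ≤ 2 * t := by omega
    have h2 : (R : ℝ) ≤ 2 * t := by exact_mod_cast h1
    linarith
  have hsR : (R : ℝ) / 2 ≤ s := by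
    have h1 : R ≤ 2 * s := by omega
    have h2 : (R : ℝ) ≤ 2 * s := by exact_mod_cast h1
    linarith
  set σ : ℝ := R / 4 with hσ
  have hσ0 : 0 < σ := by positivity
  set τ : ℝ := q ^ κ with hτ
  have hτ1 : 1 < τ := Real.one_lt_rpow hq1 hκ0
  have hτ0 : 0 < τ := by linarith
  have hτl : τ ^ l ≤ σ := by
    have h1 : τ ^ l * (q ^ δ) ^ l = R := by
      rw [← mul_pow, hτ, ← Real.rpow_add hq0, hκ, sub_add_cancel, Real.rpow_one, hRr]
    have h2 : τ ^ l * 4 ≤ τ ^ l * (q ^ δ) ^ l := by gcongr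
    rw [h1] at h2
    rw [hσ]
    linarith
  have hθt : (q ^ l) ^ (θ : ℝ) ≤ t := by
    have h1 : (q ^ l) ^ (θ : ℝ) * (q ^ l) ^ δ ≤ R := by
      rw [← Real.rpow_add (by positivity), hRr]
      calc (q ^ l) ^ ((θ : ℝ) + δ) ≤ (q ^ l) ^ (1 : ℝ) :=
            Real.rpow_le_rpow_of_exponent_le (one_le_pow₀ hq1.le) (by linarith)
        _ = q ^ l := Real.rpow_one _
    rw [← hqlδ] at h1
    have h2 : (q ^ l) ^ (θ : ℝ) * 4 ≤ (q ^ l) ^ (θ : ℝ) * (q ^ δ) ^ l := by gcongr
    linarith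
  -- the convergent sum
  have hsum : Summable (fun k : ℕ => 1 / ((k : ℝ) + 1) ^ p) := by
    have h1 := (Real.summable_one_div_nat_rpow (p := p)).2 hp1
    have h2 := (summable_nat_add_iff 1).2 h1
    simpa using h2
  set Z : ℝ := ∑' k : ℕ, 1 / ((k : ℝ) + 1) ^ p with hZ
  have hZ0 : 0 ≤ Z := tsum_nonneg fun k => by positivity
  obtain ⟨C₀, hC₀⟩ : ∃ C₀ : ℕ, (τ⁻¹) ^ C₀ < R / 4 / ((R : ℝ) ^ 2 * τ ^ l * l * τ * (Z + 1)) := by
    have hpos : (0 : ℝ) < R / 4 / ((R : ℝ) ^ 2 * τ ^ l * l * τ * (Z + 1)) := by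
      have : (0 : ℝ) < l := by exact_mod_cast hl1
      positivity
    exact exists_pow_lt_of_lt_one hpos (inv_lt_one_of_one_lt₀ hτ1)
  set C : ℕ := C₀ + 1 with hC
  have hCsmall : (R : ℝ) ^ 2 * τ ^ l * l * τ * (Z + 1) * (τ⁻¹) ^ C ≤ (R : ℝ) / 4 := by
    have hl0 : (0 : ℝ) < l := by exact_mod_cast hl1
    rw [lt_div_iff₀ (by positivity)] at hC₀
    have h1 : (τ⁻¹) ^ C ≤ (τ⁻¹) ^ C₀ :=
      pow_le_pow_of_le_one (inv_nonneg.2 hτ0.le) (inv_le_one_of_one_le₀ hτ1.le) (by omega)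
    calc (R : ℝ) ^ 2 * τ ^ l * l * τ * (Z + 1) * (τ⁻¹) ^ C
        ≤ (R : ℝ) ^ 2 * τ ^ l * l * τ * (Z + 1) * (τ⁻¹) ^ C₀ := by gcongr
      _ ≤ (R : ℝ) / 4 := by linarith
  -- the length function
  let L : ℕ → ℕ := fun k => C + ⌊(1 + lam) * Real.logb q ((k : ℝ) + 1)⌋₊
  have hLdef : ∀ k, L k = C + ⌊(1 + lam) * Real.logb q ((k : ℝ) + 1)⌋₊ := fun k => rfl
  have hlogb0 : ∀ k : ℕ, 0 ≤ (1 + lam) * Real.logb q ((k : ℝ) + 1) := by
    intro k
    apply mul_nonneg (by linarith)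
    apply Real.logb_nonneg hq1
    have : (0 : ℝ) ≤ k := by positivity
    linarith
  have hLmono : Monotone L := by
    intro k k' hkk
    rw [hLdef, hLdef]
    apply Nat.add_le_add_left
    apply Nat.floor_le_floor
    apply mul_le_mul_of_nonneg_left _ (by linarith)
    apply Real.logb_le_logb_of_le hq1 (by positivity)
    have : (k : ℝ) ≤ k' := by exact_mod_cast hkk
    linarith
  have hL1 : ∀ k, 1 ≤ L k := fun k => by
    rw [hLdef]
    omega
  have hw : ∀ k : ℕ, (τ⁻¹) ^ (L k) ≤ (τ⁻¹) ^ C * τ * (1 / ((k : ℝ) + 1) ^ p) := by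
    intro k
    rw [hLdef, pow_add, mul_assoc]
    apply mul_le_mul_of_nonneg_left _ (by positivity)
    set x : ℝ := (1 + lam) * Real.logb q ((k : ℝ) + 1) with hx
    have h1 : x - 1 ≤ (⌊x⌋₊ : ℝ) := (Nat.sub_one_lt_floor x).le
    have h2 : τ ^ (x - 1) ≤ τ ^ ⌊x⌋₊ := by
      rw [← Real.rpow_natCast]
      exact Real.rpow_le_rpow_of_exponent_le hτ1.le h1
    have h3 : τ ^ x = ((k : ℝ) + 1) ^ p := by
      rw [hτ, ← Real.rpow_mul hq0.le, hx, hp]
      have h4 : κ * ((1 + lam) * Real.logb q ((k : ℝ) + 1)) =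
          Real.logb q ((k : ℝ) + 1) * (κ * (1 + lam)) := by ring
      rw [h4, Real.rpow_mul hq0.le, Real.rpow_logb hq0 hq1.ne' (by positivity)]
    rw [inv_pow, ← h3]
    rw [Real.rpow_sub hτ0, Real.rpow_one] at h2
    have h5 : 0 < τ ^ x := by positivity
    have h6 : 0 < τ ^ ⌊x⌋₊ := by positivity
    rw [mul_one_div, ← one_div, div_le_div_iff₀ h6 h5]
    rw [div_le_iff₀ hτ0] at h2
    linarith
  have hsumw : ∀ K : ℕ, ∑ k ∈ Finset.range K, (τ⁻¹) ^ (L k) ≤ (τ⁻¹) ^ C * τ * (Z + 1) := by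
    intro K
    calc ∑ k ∈ Finset.range K, (τ⁻¹) ^ (L k)
        ≤ ∑ k ∈ Finset.range K, (τ⁻¹) ^ C * τ * (1 / ((k : ℝ) + 1) ^ p) :=
          Finset.sum_le_sum fun k _ => hw k
      _ = (τ⁻¹) ^ C * τ * ∑ k ∈ Finset.range K, (1 / ((k : ℝ) + 1) ^ p) := by
          rw [Finset.mul_sum]
      _ ≤ (τ⁻¹) ^ C * τ * (Z + 1) := by
          apply mul_le_mul_of_nonneg_left _ (by positivity)
          have := hsum.sum_le_tsum (Finset.range K) (fun k _ => by positivity)
          linarith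
  have hnum : ∀ n, ∑ p ∈ labels L l n, ((Fintype.card F ^ l : ℕ) : ℝ) ^ 2 *
      (σ⁻¹) ^ (n - (p.1 + 2 * p.2) / l) ≤ s - σ := by
    intro n
    have hterm : ∀ p ∈ labels L l n, (σ⁻¹) ^ (n - (p.1 + 2 * p.2) / l) ≤
        τ ^ l * (τ⁻¹) ^ (L (p.1 + p.2)) := by
      intro p hp
      rw [labels, Finset.mem_filter] at hp
      obtain ⟨-, -, h2⟩ := hp
      set m := (p.1 + 2 * p.2) / l with hm
      have hml : m * l ≤ p.1 + 2 * p.2 := Nat.div_mul_le_self _ _
      have hmn : m ≤ n := by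
        have h3 : m * l ≤ (n + 1) * l := by omega
        have h4 := hL1 (p.1 + p.2)
        have h5 : m * l < (n + 1) * l := by omega
        have := Nat.lt_of_mul_lt_mul_right h5
        omega
      have hLle : L (p.1 + p.2) ≤ l * (n - m + 1) := by
        have h3 : l * (n - m + 1) + m * l = (n + 1) * l := by
          obtain ⟨j, rfl⟩ := Nat.exists_eq_add_of_le hmn
          rw [Nat.add_sub_cancel_left]
          ring
        omega
      have h3 : σ⁻¹ ≤ (τ⁻¹) ^ l := by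
        rw [inv_pow]
        exact inv_anti₀ (by positivity) hτl
      calc (σ⁻¹) ^ (n - m) ≤ ((τ⁻¹) ^ l) ^ (n - m) := by gcongr
        _ = τ ^ l * (τ⁻¹) ^ (l * (n - m + 1)) := by
            have h4 : τ ^ l * (τ⁻¹) ^ l = 1 := by
              rw [← mul_pow, mul_inv_cancel₀ hτ0.ne', one_pow]
            rw [← pow_mul, mul_add, mul_one, pow_add (τ⁻¹) (l * (n - m)) l]
            linear_combination (-(τ⁻¹) ^ (l * (n - m))) * h4
        _ ≤ τ ^ l * (τ⁻¹) ^ (L (p.1 + p.2)) := by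
            apply mul_le_mul_of_nonneg_left _ (by positivity)
            exact pow_le_pow_of_le_one (inv_nonneg.2 hτ0.le) (inv_le_one_of_one_le₀ hτ1.le) hLle
    have hfib : ∑ p ∈ labels L l n, (τ⁻¹) ^ (L (p.1 + p.2)) ≤
        l * ((τ⁻¹) ^ C * τ * (Z + 1)) := by
      have hmaps : ∀ p ∈ labels L l n, p.1 + p.2 ∈ Finset.range (2 * ((n + 1) * l + 1)) := by
        intro p hp
        rw [labels, Finset.mem_filter, Finset.mem_product, Finset.mem_range,
          Finset.mem_range] at hp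
        rw [Finset.mem_range]
        omega
      rw [← Finset.sum_fiberwise_of_maps_to hmaps]
      calc ∑ k ∈ Finset.range (2 * ((n + 1) * l + 1)),
            ∑ p ∈ labels L l n with p.1 + p.2 = k, (τ⁻¹) ^ (L (p.1 + p.2))
          ≤ ∑ k ∈ Finset.range (2 * ((n + 1) * l + 1)), l * (τ⁻¹) ^ (L k) := by
            apply Finset.sum_le_sum
            intro k _
            rw [Finset.sum_congr rfl (g := fun _ => (τ⁻¹) ^ (L k)) (fun p hp => by
              rw [(Finset.mem_filter.1 hp).2]), Finset.sum_const, nsmul_eq_mul]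
            apply mul_le_mul_of_nonneg_right _ (by positivity)
            exact_mod_cast card_fiber_labels L l n k
        _ = l * ∑ k ∈ Finset.range (2 * ((n + 1) * l + 1)), (τ⁻¹) ^ (L k) := by
            rw [Finset.mul_sum]
        _ ≤ l * ((τ⁻¹) ^ C * τ * (Z + 1)) :=
            mul_le_mul_of_nonneg_left (hsumw _) (by positivity)
    calc ∑ p ∈ labels L l n, ((Fintype.card F ^ l : ℕ) : ℝ) ^ 2 *
          (σ⁻¹) ^ (n - (p.1 + 2 * p.2) / l)
        ≤ ∑ p ∈ labels L l n, (R : ℝ) ^ 2 * (τ ^ l * (τ⁻¹) ^ (L (p.1 + p.2))) := by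
          apply Finset.sum_le_sum
          intro p hp
          exact mul_le_mul_of_nonneg_left (hterm p hp) (by positivity)
      _ = (R : ℝ) ^ 2 * τ ^ l * ∑ p ∈ labels L l n, (τ⁻¹) ^ (L (p.1 + p.2)) := by
          rw [Finset.mul_sum]
          exact Finset.sum_congr rfl fun p _ => by ring
      _ ≤ (R : ℝ) ^ 2 * τ ^ l * (l * ((τ⁻¹) ^ C * τ * (Z + 1))) :=
          mul_le_mul_of_nonneg_left hfib (by positivity)
      _ = (R : ℝ) ^ 2 * τ ^ l * l * τ * (Z + 1) * (τ⁻¹) ^ C := by ring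
      _ ≤ (R : ℝ) / 4 := hCsmall
      _ ≤ s - σ := by
          rw [hσ]
          linarith
  have halive : Alive' L l t 0 (0 : ℕ → F) := fun N =>
    root_alive hLmono hL1 hl1 s t hst σ hσ0 hnum N
  refine le_dimH hl1 ht2 halive θ hθpos hθt _ fun x hx => ?_
  -- membership
  refine mem_M L (growth lam) ((q⁻¹) ^ C * ((2 : ℝ) ^ (1 + lam))⁻¹) (by positivity) x ?_ ?_ hx
  · intro k
    have h2 : (1 : ℝ) ≤ 2 ^ (1 + lam) := Real.one_le_rpow (by norm_num) (by linarith)
    have h3 : ((2 : ℝ) ^ (1 + lam))⁻¹ ≤ 1 := inv_le_one_of_one_le₀ h2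
    have hkey : (q⁻¹) ^ C * (((k : ℝ) + 1) ^ (1 + lam))⁻¹ ≤ (q⁻¹) ^ (L k) := by
      rw [hLdef, pow_add (q⁻¹) C]
      apply mul_le_mul_of_nonneg_left _ (by positivity)
      set x : ℝ := (1 + lam) * Real.logb q ((k : ℝ) + 1) with hx
      have h4 : (⌊x⌋₊ : ℝ) ≤ x := Nat.floor_le (hlogb0 k)
      have h5 : q ^ ⌊x⌋₊ ≤ q ^ x := by
        rw [← Real.rpow_natCast]
        exact Real.rpow_le_rpow_of_exponent_le hq1.le h4
      have h6 : q ^ x = ((k : ℝ) + 1) ^ (1 + lam) := by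
        rw [hx, mul_comm, Real.rpow_mul hq0.le, Real.rpow_logb hq0 hq1.ne' (by positivity)]
      rw [inv_pow, ← h6]
      exact inv_anti₀ (by positivity) h5
    by_cases hk : k = 0
    · rw [growth, if_pos hk, one_mul]
      refine le_trans ?_ hkey
      rw [hk, Nat.cast_zero, zero_add, Real.one_rpow, inv_one, mul_one]
      exact mul_le_of_le_one_right (by positivity) h3
    · rw [growth, if_neg hk]
      have hk1 : (1 : ℝ) ≤ k := by
        have : 1 ≤ k := by omega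
        exact_mod_cast this
      have h4 : (k : ℝ) ^ (1 + lam) * ((q⁻¹) ^ C * (((k : ℝ) + 1) ^ (1 + lam))⁻¹) ≤
          (k : ℝ) ^ (1 + lam) * (q⁻¹) ^ (L k) := mul_le_mul_of_nonneg_left hkey (by positivity)
      refine le_trans ?_ h4
      have h5 : ((k : ℝ) + 1) ^ (1 + lam) ≤ 2 ^ (1 + lam) * (k : ℝ) ^ (1 + lam) := by
        rw [← Real.mul_rpow (by norm_num) (by linarith)]
        exact Real.rpow_le_rpow (by linarith) (by linarith) (by linarith)
      have h6 : ((2 : ℝ) ^ (1 + lam))⁻¹ ≤ (k : ℝ) ^ (1 + lam) * (((k : ℝ) + 1) ^ (1 + lam))⁻¹ := by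
        rw [← div_eq_mul_inv, ← one_div, div_le_div_iff₀ (by positivity) (by positivity)]
        linarith
      calc (q⁻¹) ^ C * ((2 : ℝ) ^ (1 + lam))⁻¹
          ≤ (q⁻¹) ^ C * ((k : ℝ) ^ (1 + lam) * (((k : ℝ) + 1) ^ (1 + lam))⁻¹) := by gcongr
        _ = _ := by ring
  · intro k
    rw [growth]
    split_ifs
    · norm_num
    · positivity

end Pool.Agent.Results.MP_26f5de_nt.FullDimension
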